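import Pool.Agent.MWLE.StmtsA

/-!
# MWLE, row TNF (MP_23468a_al): normal form of the tails
-/

set_option autoImplicit false

namespace Pool.Agent.MWLE.H5

open Pool.Agent.Helper14_MV Pool.Agent.Helper2_MV
open Pool.Agent.MWK (pre Gw)
open Pool.Agent.MWF (Ap gaml dbl)
open Pool.Agent.MWGN (nn Gz E0 P0 A0 Tau gh)

variable {β : FIC}

/-- a letter which is not the first occurrence may be doubled -/
theorem gpow (h : Gw β) (c : ℕ) (k : ℕ) : ∀ (u q : List ℕ), c ∈ u →
    RR β (u ++ (List.replicate (k + 1) c ++ q)) (u ++ c :: q) := by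
  induction k with
  | zero =>
    intro u q _
    exact RR.refl _
  | succ k ih =>
    intro u q hc
    obtain ⟨u1, u2, rfl⟩ := List.append_of_mem hc
    have h1 := h.gm.sub (fun d => if d = 0 then [c] else u2)
    have h2 := ((RR.refl (β := β) u1).append h1).append
      (RR.refl (List.replicate k c ++ q))
    have e1 : u1 ++ ([0, 1, 0, 0] : List ℕ).flatMap (fun d => if d = 0 then [c] else u2) ++
        (List.replicate k c ++ q) =
        (u1 ++ c :: u2) ++ (List.replicate (k + 1 + 1) c ++ q) := by
      simp [List.replicate_succ]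
    have e2 : u1 ++ ([0, 1, 0] : List ℕ).flatMap (fun d => if d = 0 then [c] else u2) ++
        (List.replicate k c ++ q) =
        (u1 ++ c :: u2) ++ (List.replicate (k + 1) c ++ q) := by
      simp [List.replicate_succ]
    rw [e1, e2] at h2
    exact β.trans h2.symm (ih (u1 ++ c :: u2) q hc)

theorem gtl (h : Gw β) (S L f : ℕ → ℕ) (l : List ℕ) : ∀ u : List ℕ,
    (∀ r ∈ l, L r ∈ u ∧ 1 ≤ f r) →
    RR β (u ++ l.flatMap (fun r => S r :: List.replicate (f r) (L r)))
      (u ++ l.flatMap (fun r => [S r, L r])) := by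
  induction l with
  | nil => intro u _; exact RR.refl _
  | cons r l ih =>
    intro u hu
    obtain ⟨hr, hf⟩ := hu r (by simp)
    obtain ⟨k, hk⟩ : ∃ k', f r = k' + 1 := ⟨f r - 1, by omega⟩
    rw [List.flatMap_cons, List.flatMap_cons, hk]
    have h1 := gpow h (L r) k (u ++ [S r])
      (l.flatMap (fun r => S r :: List.replicate (f r) (L r))) (by simp [hr])
    have h2 := ih (u ++ [S r, L r]) (fun s hs =>
      ⟨List.mem_append_left _ (hu s (List.mem_cons_of_mem _ hs)).1,
        (hu s (List.mem_cons_of_mem _ hs)).2⟩)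
    simp only [List.append_assoc, List.cons_append, List.nil_append] at h1 h2 ⊢
    exact β.trans h1 h2

/-- the order of a duplicate free list -/
theorem pw_pre0 (l : List ℕ) : ∀ A : List ℕ, (A ++ l).Nodup →
    l.Pairwise (fun j k => j ∈ pre (A ++ l) k) := by
  induction l with
  | nil => intro A _; exact List.Pairwise.nil
  | cons a l ih =>
    intro A hA
    have e : A ++ a :: l = (A ++ [a]) ++ l := by simp
    rw [List.pairwise_cons]
    constructor
    · intro b hb
      have hb' : b ∉ A ++ [a] := by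
        intro hb1
        rw [e] at hA
        exact (List.disjoint_of_nodup_append hA) hb1 hb
      rw [e, MWK.pre_append hb']
      exact List.mem_append_left _ (by simp)
    · rw [e] at hA ⊢
      exact ih (A ++ [a]) hA

theorem pw_pre (l : List ℕ) (h : l.Nodup) : l.Pairwise (fun j k => j ∈ pre l k) :=
  pw_pre0 l [] h

theorem sf_split (W : List ℕ) (q : ℕ) : W = pre W q ++ sf W q := by
  unfold sf
  obtain ⟨C, hC⟩ := MWK.pre_prefix W q
  have h1 : W.take (pre W q).length = pre W q :=
    (List.prefix_iff_eq_take.1 (MWK.pre_prefix W q)).symm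
  conv_lhs => rw [← List.take_append_drop (pre W q).length W, h1]

theorem tnf (hS : MWGN.SrtStmt) : TnfStmt := by
  intro β hβ σ τ m hσ W hW P A hA
  have hmem : ∀ k, k ≤ 2 * m + 2 → k ∈ σ := fun k hk => (hσ.me k).2 hk
  obtain ⟨k0, σ', hσe⟩ : ∃ k0 σ', σ = k0 :: σ' := by
    rcases σ with _ | ⟨k0, σ'⟩
    · exact absurd (hmem 0 (by omega)) (by simp)
    · exact ⟨k0, σ', rfl⟩
  have ht : t1 σ = sep k0 := by rw [hσe]; rfl
  have hk0 : k0 ≤ 2 * m + 2 := (hσ.me k0).1 (by rw [hσe]; simp)
  -- the splitting of W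
  obtain ⟨D, hD⟩ : ∃ D, D = sf W (t1 σ) := ⟨_, rfl⟩
  have hWs : W = pre W (t1 σ) ++ D := by rw [hD]; exact sf_split W _
  rw [← hD]
  have hcD : ∀ c, D.count c + nn W c (t1 σ) = W.count c := by
    intro c
    have h1 : W.count c = (pre W (t1 σ) ++ D).count c := by rw [← hWs]
    rw [h1, List.count_append]
    unfold nn
    omega
  have hnf : ∀ k ≤ 2 * m + 2, nn W (sep k) (t1 σ) = 0 := by
    intro k hk
    rw [ht]
    by_cases hkk : k = k0
    · subst hkk
      exact List.count_eq_zero.2 (MWK.not_mem_pre W _)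
    · have h1 : k0 ∈ pre σ k := by
        rw [hσe, show k0 :: σ' = [k0] ++ σ' from rfl, MWK.pre_append (by simpa using hkk)]
        simp
      have h2 := hW.ss k0 k hk0 hk h1
      refine List.count_eq_zero.2 (fun h3 => ?_)
      have h4 : sep k0 ∈ pre W (sep k) := by
        unfold nn at h2
        exact List.count_pos_iff.1 (by omega)
      have h5 := MWK.mem_of_mem_pre h3
      have h6 := MWK.pre_trans h3 h4
      exact MWK.not_mem_pre W _ h6
  have hDs : ∀ k ≤ 2 * m + 2, D.count (sep k) = 1 := by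
    intro k hk
    have h1 := hcD (sep k)
    have h2 := hW.s1 k hk
    have h3 := hnf k hk
    omega
  have hDp : ∀ k ≤ 2 * m + 2, D.count (pin k) + 1 = W.count (pin k) := by
    intro k hk
    have h1 := hcD (pin k)
    have h3 := hW.pt k hk
    omega
  -- first order fact
  have ho1 : ∀ k ≤ 2 * m + 2, ∀ u0 v0 : List ℕ, D = u0 ++ v0 → pin k ∈ u0 → sep k ∉ v0 := by
    intro k hk u0 v0 hu hp hs
    have h1 : sep k ∉ u0 := by
      intro h2
      have h3 := hDs k hk
      rw [hu, List.count_append] at h3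
      have h4 := List.count_pos_iff.2 h2
      have h5 := List.count_pos_iff.2 hs
      omega
    have h2 : sep k ∉ pre W (t1 σ) := List.count_eq_zero.1 (hnf k hk)
    have h3 : pre W (sep k) = (pre W (t1 σ) ++ u0) ++ pre v0 (sep k) := by
      conv_lhs => rw [hWs, hu, ← List.append_assoc]
      exact MWK.pre_append (by
        rw [List.mem_append]
        tauto) v0
    have h4 := hW.ps k hk
    unfold nn at h4
    rw [h3, List.count_append, List.count_append] at h4
    have h5 := hW.pt k hk
    unfold nn at h5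
    have h6 := List.count_pos_iff.2 hp
    omega
  have ho2 : ∀ j k, j ≤ 2 * m + 2 → k ≤ 2 * m + 2 → j ∈ pre σ k → ∀ u0 v0 : List ℕ,
      D = u0 ++ v0 → (sep k ∈ u0 ∨ pin k ∈ u0) → sep j ∉ v0 ∧ pin j ∉ v0 := by
    intro j k hj hk hjk u0 v0 hu hp
    have h1 : sep k ∈ u0 := by
      rcases hp with h | h
      · exact h
      · have h2 := ho1 k hk u0 v0 hu h
        have h3 : sep k ∈ D := List.count_pos_iff.1 (by rw [hDs k hk]; omega)
        rw [hu, List.mem_append] at h3
        exact h3.resolve_right h2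
    have h2 : pre W (sep k) = pre (pre W (t1 σ) ++ u0) (sep k) := by
      conv_lhs => rw [hWs, hu, ← List.append_assoc]
      exact MWK.pre_append_mem (List.mem_append_right _ h1) v0
    have h3 : ∀ c, (pre W (sep k)).count c = W.count c → c ∉ v0 := by
      intro c hc hcv
      have h4 : (pre W (sep k)).count c ≤ (pre W (t1 σ) ++ u0).count c := by
        rw [h2]
        exact MWK.count_pre_le _ _ _
      have h5 : W.count c = (pre W (t1 σ) ++ u0).count c + v0.count c := by
        conv_lhs => rw [hWs, hu, ← List.append_assoc]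
        rw [List.count_append]
      have h6 := List.count_pos_iff.2 hcv
      omega
    refine ⟨h3 _ ?_, h3 _ ?_⟩
    · have h4 := hW.ss j k hj hk hjk
      unfold nn at h4
      rw [h4, hW.s1 j hj]
    · exact hW.pa j k hj hk hjk
  -- the filtered list
  set p : ℕ → Bool := fun c => decide (∃ k, k ≤ 2 * m + 2 ∧ P k = true ∧ (c = sep k ∨ c = pin k))
    with hp
  have hps : ∀ k, k ≤ 2 * m + 2 → P k = true → p (sep k) = true ∧ p (pin k) = true := by
    intro k hk hP
    rw [hp]
    simp only [decide_eq_true_eq]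
    exact ⟨⟨k, hk, hP, Or.inl rfl⟩, ⟨k, hk, hP, Or.inr rfl⟩⟩
  have hσP : ∀ k ∈ σ.filter P, k ≤ 2 * m + 2 ∧ P k = true := by
    intro k hk
    rw [List.mem_filter] at hk
    exact ⟨(hσ.me k).1 hk.1, hk.2⟩
  have hpw : (σ.filter P).Pairwise (fun j k => j ∈ pre σ k) := (pw_pre σ hσ.nd).filter P
  have hpw2 : (σ.filter P).Pairwise (fun j k => (j ≤ 2 * m + 2 ∧ k ≤ 2 * m + 2) ∧
      j ≠ k ∧ j ∈ pre σ k) := by
    refine List.Pairwise.imp_of_mem ?_ hpw
    intro j k hj hk hjk
    refine ⟨⟨(hσP j hj).1, (hσP k hk).1⟩, ?_, hjk⟩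
    rintro rfl
    exact MWK.not_mem_pre σ _ hjk
  have hMn : (tl (σ.filter P)).Nodup := by
    unfold tl List.Nodup
    rw [List.pairwise_flatMap]
    constructor
    · intro k _
      simp [sep, pin]
    · refine hpw2.imp ?_
      rintro j k ⟨-, hne, -⟩ x hx y hy
      simp only [List.mem_cons, List.not_mem_nil, or_false] at hx hy
      unfold sep pin at hx hy
      omega
  have hMm : ∀ c ∈ D.filter p, c ∈ tl (σ.filter P) := by
    intro c hc
    rw [List.mem_filter] at hc
    obtain ⟨-, hc⟩ := hc
    rw [hp] at hc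
    simp only [decide_eq_true_eq] at hc
    obtain ⟨k, hk, hP, hc⟩ := hc
    unfold tl
    rw [List.mem_flatMap]
    refine ⟨k, List.mem_filter.2 ⟨hmem k hk, hP⟩, ?_⟩
    simp only [List.mem_cons, List.not_mem_nil, or_false]
    exact hc
  have hMo : (tl (σ.filter P)).Pairwise (fun c d => ∀ u v : List ℕ, D.filter p = u ++ v →
      d ∈ u → c ∉ v) := by
    unfold tl
    rw [List.pairwise_flatMap]
    constructor
    · intro k hk
      have hk' := (hσP k hk).1
      rw [List.pairwise_cons]
      refine ⟨?_, by simp⟩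
      intro d hd u v huv hdu hcv
      simp only [List.mem_cons, List.not_mem_nil, or_false] at hd
      subst hd
      obtain ⟨u0, v0, h1, h2, h3⟩ := List.filter_eq_append_iff.1 huv
      rw [← h2, List.mem_filter] at hdu
      rw [← h3, List.mem_filter] at hcv
      exact ho1 k hk' u0 v0 h1 hdu.1 hcv.1
    · refine hpw2.imp ?_
      rintro j k ⟨⟨hj, hk⟩, -, hjk⟩ x hx y hy u v huv hdu hcv
      simp only [List.mem_cons, List.not_mem_nil, or_false] at hx hy
      obtain ⟨u0, v0, h1, h2, h3⟩ := List.filter_eq_append_iff.1 huv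
      rw [← h2, List.mem_filter] at hdu
      rw [← h3, List.mem_filter] at hcv
      have h4 := ho2 j k hj hk hjk u0 v0 h1 (by
        rcases hy with h | h
        · left
          rw [← h]
          exact hdu.1
        · right
          rw [← h]
          exact hdu.1)
      rcases hx with h | h
      · exact h4.1 (h ▸ hcv.1)
      · exact h4.2 (h ▸ hcv.1)
  have hsrt := hS _ _ hMn hMm hMo
  have hfin : D.filter p = (σ.filter P).flatMap
      (fun k => sep k :: List.replicate (W.count (pin k) - 1) (pin k)) := by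
    rw [hsrt]
    unfold tl
    rw [List.flatMap_assoc]
    refine List.flatMap_congr ?_
    intro k hk
    obtain ⟨hk1, hk2⟩ := hσP k hk
    obtain ⟨p1, p2⟩ := hps k hk1 hk2
    have c1 : (D.filter p).count (sep k) = 1 := by
      rw [List.count_filter p1, hDs k hk1]
    have c2 : (D.filter p).count (pin k) = W.count (pin k) - 1 := by
      rw [List.count_filter p2]
      have := hDp k hk1
      omega
    simp [c1, c2]
  rw [hfin]
  unfold tl
  refine gtl hβ.gw sep pin (fun k => W.count (pin k) - 1) (σ.filter P) A ?_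
  intro k hk
  obtain ⟨hk1, hk2⟩ := hσP k hk
  refine ⟨hA k hk1 hk2, ?_⟩
  have := hW.p2 k hk1
  show 1 ≤ W.count (pin k) - 1
  omega

end Pool.Agent.MWLE.H5
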